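import Pool.Agent.Helper70.HR.Hyp

/-!
# Compactness: from the finite levels to one edge set
-/

namespace Helper70.HR

open Set SimpleGraph

universe u

variable {V : Type u} {G : SimpleGraph V}

/-- `S` has an edge of `G` between `A` and `B` -/
def Meets (G : SimpleGraph V) (S : Set (Sym2 V)) (A B : Set V) : Prop :=
  ∃ x ∈ A, ∃ y ∈ B, G.Adj x y ∧ s(x, y) ∈ S

/-- conditions of level `n` -/
structure LevelOK (G : SimpleGraph V) (C : ℕ → Set V) (S : Set (Sym2 V)) (n : ℕ) : Prop where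
  ring : ∀ j, 2 * j + 1 ≤ n → ∀ A ⊆ C (2 * j + 1) \ C (2 * j), A.Nonempty →
    A ≠ C (2 * j + 1) \ C (2 * j) → Meets G S A ((C (2 * j + 1) \ C (2 * j)) \ A)
  span : ∀ X ⊆ C n, X.Nonempty → Meets G S X Xᶜ
  cospan : ∀ X ⊆ C n, X.Nonempty → Meets G Sᶜ X Xᶜ

theorem isClosed_meets (hlf : ∀ v, (G.neighborSet v).Finite) {A B : Set V} (hA : A.Finite)
    (b : Bool) : IsClosed {f : Sym2 V → Bool | Meets G {e | f e = b} A B} := by
  have h : {f : Sym2 V → Bool | Meets G {e | f e = b} A B} =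
      ⋃ p ∈ {p : V × V | p.1 ∈ A ∧ p.2 ∈ B ∧ G.Adj p.1 p.2},
        {f : Sym2 V → Bool | f s(p.1, p.2) = b} := by
    ext f
    simp only [Meets, mem_ofPred_eq, mem_iUnion, exists_prop, Prod.exists]
    constructor
    · rintro ⟨x, hx, y, hy, h1, h2⟩
      exact ⟨x, y, ⟨hx, hy, h1⟩, h2⟩
    · rintro ⟨x, y, ⟨hx, hy, h1⟩, h2⟩
      exact ⟨x, hx, y, hy, h1, h2⟩
  rw [h]
  apply (finite_pairs hlf hA B).isClosed_biUnion
  intro p _
  exact isClosed_eq (continuous_apply _) continuous_const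

theorem compactness (hlf : ∀ v, (G.neighborSet v).Finite) (C : ℕ → Set V)
    (hCf : ∀ i, (C i).Finite) (hCm : ∀ i, C i ⊆ C (i + 1))
    (hfin : ∀ n, ∃ S : Set (Sym2 V), LevelOK G C S n) :
    ∃ S : Set (Sym2 V), ∀ n, LevelOK G C S n := by
  classical
  let K : ℕ → Set (Sym2 V → Bool) := fun n => {f | LevelOK G C {e | f e = true} n}
  have hcompl : ∀ f : Sym2 V → Bool, ({e | f e = true} : Set (Sym2 V))ᶜ = {e | f e = false} := by
    intro f
    ext e
    simp
  have hK : ∀ n, IsClosed (K n) := by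
    intro n
    have hKn : K n = (⋂ j, ⋂ (_ : 2 * j + 1 ≤ n), ⋂ A, ⋂ (_ : A ⊆ C (2 * j + 1) \ C (2 * j)),
        ⋂ (_ : A.Nonempty), ⋂ (_ : A ≠ C (2 * j + 1) \ C (2 * j)),
        {f : Sym2 V → Bool | Meets G {e | f e = true} A ((C (2 * j + 1) \ C (2 * j)) \ A)}) ∩
        ((⋂ X, ⋂ (_ : X ⊆ C n), ⋂ (_ : X.Nonempty),
          {f : Sym2 V → Bool | Meets G {e | f e = true} X Xᶜ}) ∩
        (⋂ X, ⋂ (_ : X ⊆ C n), ⋂ (_ : X.Nonempty),
          {f : Sym2 V → Bool | Meets G {e | f e = false} X Xᶜ})) := by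
      ext f
      simp only [K, mem_ofPred_eq, mem_inter_iff, mem_iInter]
      constructor
      · rintro ⟨h1, h2, h3⟩
        exact ⟨h1, h2, fun X hX hne => by rw [← hcompl]; exact h3 X hX hne⟩
      · rintro ⟨h1, h2, h3⟩
        exact ⟨h1, h2, fun X hX hne => by rw [hcompl]; exact h3 X hX hne⟩
    rw [hKn]
    refine IsClosed.inter ?_ (IsClosed.inter ?_ ?_)
    · refine isClosed_iInter fun j => isClosed_iInter fun _ => isClosed_iInter fun A =>
        isClosed_iInter fun hA => isClosed_iInter fun _ => isClosed_iInter fun _ => ?_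
      exact isClosed_meets hlf ((hCf (2 * j + 1)).subset (hA.trans sdiff_subset)) true
    · refine isClosed_iInter fun X => isClosed_iInter fun hX => isClosed_iInter fun _ => ?_
      exact isClosed_meets hlf ((hCf n).subset hX) true
    · refine isClosed_iInter fun X => isClosed_iInter fun hX => isClosed_iInter fun _ => ?_
      exact isClosed_meets hlf ((hCf n).subset hX) false
  have hmono : ∀ n, K (n + 1) ⊆ K n := by
    rintro n f ⟨h1, h2, h3⟩
    exact ⟨fun j hj => h1 j (by omega), fun X hX => h2 X (hX.trans (hCm n)),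
      fun X hX => h3 X (hX.trans (hCm n))⟩
  have hne : ∀ n, (K n).Nonempty := by
    intro n
    obtain ⟨S, hS⟩ := hfin n
    refine ⟨fun e => decide (e ∈ S), ?_⟩
    change LevelOK G C {e | decide (e ∈ S) = true} n
    have : ({e | decide (e ∈ S) = true} : Set (Sym2 V)) = S := by
      ext e
      simp
    rw [this]
    exact hS
  obtain ⟨f, hf⟩ := IsCompact.nonempty_iInter_of_sequence_nonempty_isCompact_isClosed K hmono hne
    (hK 0).isCompact hK
  exact ⟨{e | f e = true}, fun n => mem_iInter.1 hf n⟩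

end Helper70.HR
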