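import Mathlib

/-!
# Cuts of locally finite graphs: counting edges between two sets
-/

namespace Helper70.HR

open Set

variable {V : Type*}

/-- number of edges between `A` and `B` (ordered pairs `(a, b)` with `a ∈ A`, `b ∈ B`) -/
noncomputable def en (G : SimpleGraph V) (A B : Set V) : ℕ :=
  {p : V × V | p.1 ∈ A ∧ p.2 ∈ B ∧ G.Adj p.1 p.2}.ncard

/-- `L` is connected, in the cut form -/
def Cn (G : SimpleGraph V) (L : Set V) : Prop :=
  ∀ A ⊆ L, A.Nonempty → A ≠ L → ∃ x ∈ A, ∃ y ∈ L \ A, G.Adj x y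

variable {G : SimpleGraph V}

theorem finite_pairs (hlf : ∀ v, (G.neighborSet v).Finite) {A : Set V} (hA : A.Finite)
    (B : Set V) : {p : V × V | p.1 ∈ A ∧ p.2 ∈ B ∧ G.Adj p.1 p.2}.Finite := by
  have h : (⋃ a ∈ A, (fun b => (a, b)) '' G.neighborSet a).Finite :=
    hA.biUnion (fun a _ => (hlf a).image _)
  refine h.subset ?_
  rintro ⟨a, b⟩ ⟨ha, -, hab⟩
  simp only [mem_iUnion, mem_image]
  exact ⟨a, ha, b, hab, rfl⟩

theorem en_comm (A B : Set V) : en G A B = en G B A := by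
  unfold en
  have h : {p : V × V | p.1 ∈ B ∧ p.2 ∈ A ∧ G.Adj p.1 p.2} =
      Prod.swap '' {p : V × V | p.1 ∈ A ∧ p.2 ∈ B ∧ G.Adj p.1 p.2} := by
    ext ⟨a, b⟩
    simp only [mem_ofPred_eq, mem_image, Prod.exists, Prod.swap_prod_mk, Prod.mk.injEq]
    constructor
    · rintro ⟨h1, h2, h3⟩
      exact ⟨b, a, ⟨h2, h1, h3.symm⟩, rfl, rfl⟩
    · rintro ⟨x, y, ⟨h1, h2, h3⟩, rfl, rfl⟩
      exact ⟨h2, h1, h3.symm⟩
  rw [h, Set.ncard_image_of_injective _ Prod.swap_injective]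

theorem en_union (hlf : ∀ v, (G.neighborSet v).Finite) {A : Set V} (hA : A.Finite)
    {B C : Set V} (h : Disjoint B C) : en G A (B ∪ C) = en G A B + en G A C := by
  unfold en
  rw [← Set.ncard_union_eq ?_ (finite_pairs hlf hA B) (finite_pairs hlf hA C)]
  · congr 1
    ext ⟨a, b⟩
    simp only [mem_ofPred_eq, mem_union]
    tauto
  · rw [Set.disjoint_left]
    rintro ⟨a, b⟩ ⟨-, h1, -⟩ ⟨-, h2, -⟩
    exact Set.disjoint_left.1 h h1 h2

theorem en_mono_right (hlf : ∀ v, (G.neighborSet v).Finite) {A : Set V} (hA : A.Finite)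
    {B C : Set V} (h : B ⊆ C) : en G A B ≤ en G A C := by
  apply Set.ncard_le_ncard _ (finite_pairs hlf hA C)
  rintro ⟨a, b⟩ ⟨h1, h2, h3⟩
  exact ⟨h1, h h2, h3⟩

theorem en_mono_left (hlf : ∀ v, (G.neighborSet v).Finite) {A C : Set V} (hC : C.Finite)
    {B : Set V} (h : A ⊆ C) : en G A B ≤ en G C B := by
  apply Set.ncard_le_ncard _ (finite_pairs hlf hC B)
  rintro ⟨a, b⟩ ⟨h1, h2, h3⟩
  exact ⟨h h1, h2, h3⟩

/-- the boundary size -/
noncomputable def dl (G : SimpleGraph V) (X : Set V) : ℕ := en G X Xᶜ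

/-- adding `K` to `C` -/
theorem dl_union (hlf : ∀ v, (G.neighborSet v).Finite) {C K : Set V} (hC : C.Finite)
    (hK : K.Finite) (h : Disjoint C K) :
    dl G (C ∪ K) + en G K C = dl G C + en G K (C ∪ K)ᶜ := by
  unfold dl
  have h1 : en G (C ∪ K) (C ∪ K)ᶜ = en G C (C ∪ K)ᶜ + en G K (C ∪ K)ᶜ := by
    have hfin := finite_pairs hlf (hC.union hK) (C ∪ K)ᶜ
    unfold en
    rw [← Set.ncard_union_eq ?_ (finite_pairs hlf hC _) (finite_pairs hlf hK _)]
    · congr 1
      ext ⟨a, b⟩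
      simp only [mem_ofPred_eq, mem_union]
      tauto
    · rw [Set.disjoint_left]
      rintro ⟨a, b⟩ ⟨h1, -, -⟩ ⟨h2, -, -⟩
      exact Set.disjoint_left.1 h h1 h2
  have h2 : en G C Cᶜ = en G C (C ∪ K)ᶜ + en G C K := by
    rw [← en_union hlf hC]
    · congr 1
      ext x
      simp only [mem_compl_iff, mem_union]
      constructor
      · intro hx
        by_cases hk : x ∈ K
        · exact Or.inr hk
        · exact Or.inl (by tauto)
      · rintro (hx | hx)
        · tauto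
        · exact fun hc => Set.disjoint_left.1 h hc hx
    · rw [Set.disjoint_left]
      intro x hx hk
      exact hx (Or.inr hk)
  rw [h1, h2, en_comm K C]
  omega

end Helper70.HR
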