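import Pool.Agent.Helper70.HR.Pieces

/-!
# Existence of the pieces in one-ended graphs
-/

namespace Helper70.HR

open Set SimpleGraph

variable {V : Type*} {G : SimpleGraph V}

/-- finite preconnected extension of a finite set inside a preconnected induced subgraph -/
theorem exists_cn {S : Set V} (hS : (G.induce S).Preconnected) {T : Set V} (hT : T.Finite)
    (hTne : T.Nonempty) (hTS : T ⊆ S) : ∃ L : Set V, L.Finite ∧ T ⊆ L ∧ L ⊆ S ∧ Cn G L := by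
  classical
  let T' : Set S := {x | (x : V) ∈ T}
  have hT' : T'.Finite := by
    apply Set.Finite.preimage (fun x _ y _ h => Subtype.ext h) hT
  obtain ⟨a, ha⟩ := hTne
  obtain ⟨L', hL', hcon⟩ := extend_finset_to_connected hS (t := hT'.toFinset)
    ⟨⟨a, hTS ha⟩, by simpa [T'] using ha⟩
  refine ⟨Subtype.val '' (L' : Set S), (L'.finite_toSet).image _, ?_, ?_, ?_⟩
  · intro x hx
    exact ⟨⟨x, hTS hx⟩, hL' (by simpa [T'] using hx), rfl⟩
  · rintro x ⟨y, -, rfl⟩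
    exact y.2
  · intro A hA hAne hAn
    obtain ⟨x, hx⟩ := hAne
    obtain ⟨x', hx', rfl⟩ := hA hx
    have h2 : ∃ y ∈ (L' : Set S), (y : V) ∉ A := by
      by_contra h
      push Not at h
      apply hAn
      apply Set.Subset.antisymm hA
      rintro z ⟨y, hy, rfl⟩
      exact h y hy
    obtain ⟨y', hy', hyA⟩ := h2
    obtain ⟨p⟩ := hcon.preconnected ⟨x', hx'⟩ ⟨y', hy'⟩
    obtain ⟨d, -, hd1, hd2⟩ := p.exists_boundary_dart
      {z : (L' : Set S) | ((z : S) : V) ∈ A} hx hyA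
    exact ⟨d.fst.1.1, hd1, d.snd.1.1, ⟨⟨d.snd.1, d.snd.2, rfl⟩, hd2⟩, d.adj⟩

section

variable (hlf : ∀ v, (G.neighborSet v).Finite)
  (h4 : ∀ X : Set V, X.Finite → X.Nonempty → 4 ≤ dl G X)
  (h1 : ∀ K : Set V, K.Finite → ∃ L : Set V, L.Finite ∧ K ⊆ L ∧ (G.induce Lᶜ).Preconnected)

include hlf h4 h1

theorem exists_layer {C : Set V} (hC : C.Finite) (hCne : C.Nonempty) :
    ∃ C₀ L : Set V, C ⊆ C₀ ∧ C₀.Finite ∧ L.Finite ∧ L.Nonempty ∧ Disjoint C₀ L ∧ Cn G L ∧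
      ∀ x ∈ C₀, ∀ y, G.Adj x y → y ∈ C₀ ∨ y ∈ L := by
  obtain ⟨C₀, hC₀, hCC₀, hpre⟩ := h1 C hC
  have hbf : {y | y ∉ C₀ ∧ ∃ x ∈ C₀, G.Adj x y}.Finite := by
    have h : (⋃ x ∈ C₀, G.neighborSet x).Finite := hC₀.biUnion (fun x _ => hlf x)
    refine h.subset ?_
    rintro y ⟨-, x, hx, hxy⟩
    simp only [mem_iUnion]
    exact ⟨x, hx, hxy⟩
  have hbne : {y | y ∉ C₀ ∧ ∃ x ∈ C₀, G.Adj x y}.Nonempty := by
    have h := h4 C₀ hC₀ (hCne.mono hCC₀)
    have hne : ({p : V × V | p.1 ∈ C₀ ∧ p.2 ∈ C₀ᶜ ∧ G.Adj p.1 p.2}).Nonempty := by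
      by_contra hcon
      rw [Set.not_nonempty_iff_eq_empty] at hcon
      unfold dl en at h
      rw [hcon, Set.ncard_empty] at h
      omega
    obtain ⟨⟨x, y⟩, hx, hy, hxy⟩ := hne
    exact ⟨y, hy, x, hx, hxy⟩
  obtain ⟨L, hLf, hTL, hLS, hcn⟩ := exists_cn hpre hbf hbne (fun y hy => hy.1)
  refine ⟨C₀, L, hCC₀, hC₀, hLf, hbne.mono hTL, ?_, hcn, ?_⟩
  · rw [Set.disjoint_left]
    intro x hx hx'
    exact hLS hx' hx
  · intro x hx y hxy
    by_cases hy : y ∈ C₀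
    · exact Or.inl hy
    · exact Or.inr (hTL ⟨hy, x, hx, hxy⟩)

theorem exists_CC {C : Set V} (hC : C.Finite) (hCne : C.Nonempty) : ∃ C', CC G C C' := by
  obtain ⟨A₁, L₁, hA₁, hA₁f, hL₁f, hL₁ne, hd₁, hc₁, hs₁⟩ := exists_layer hlf h4 h1 hC hCne
  obtain ⟨A₂, L₂, hA₂, hA₂f, hL₂f, hL₂ne, hd₂, hc₂, hs₂⟩ := exists_layer hlf h4 h1
    (hA₁f.union hL₁f) (hL₁ne.mono subset_union_right)
  obtain ⟨A₃, L₃, hA₃, hA₃f, hL₃f, hL₃ne, hd₃, hc₃, hs₃⟩ := exists_layer hlf h4 h1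
    (hA₂f.union hL₂f) (hL₂ne.mono subset_union_right)
  have h11 : A₁ ⊆ A₂ := subset_union_left.trans hA₂
  have h12 : L₁ ⊆ A₂ := subset_union_right.trans hA₂
  have h21 : A₂ ⊆ A₃ := subset_union_left.trans hA₃
  have h22 : L₂ ⊆ A₃ := subset_union_right.trans hA₃
  have hnot : ∀ {A L : Set V}, Disjoint A L → C ⊆ A → ∀ x ∈ L, x ∉ C :=
    fun hd hCA x hx hc => Set.disjoint_left.1 hd (hCA hc) hx
  refine ⟨A₃ ∪ L₃, hA₃f.union hL₃f, (hA₁.trans (h11.trans h21)).trans subset_union_left,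
    ![L₁, L₂, L₃], ?_, ?_⟩
  · intro t
    fin_cases t
    · exact ⟨fun x hx => ⟨Or.inl (h21 (h12 hx)), hnot hd₁ hA₁ x hx⟩, hL₁ne, hc₁, A₁, hA₁,
        (h11.trans h21).trans subset_union_left, hd₁, hs₁⟩
    · exact ⟨fun x hx => ⟨Or.inl (h22 hx), hnot hd₂ (hA₁.trans h11) x hx⟩, hL₂ne, hc₂, A₂,
        hA₁.trans h11, h21.trans subset_union_left, hd₂, hs₂⟩
    · exact ⟨fun x hx => ⟨Or.inr hx, hnot hd₃ (hA₁.trans (h11.trans h21)) x hx⟩, hL₃ne, hc₃, A₃,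
        hA₁.trans (h11.trans h21), subset_union_left, hd₃, hs₃⟩
  · have d12 : Disjoint L₁ L₂ := hd₂.mono_left h12
    have d13 : Disjoint L₁ L₃ := hd₃.mono_left (h12.trans h21)
    have d23 : Disjoint L₂ L₃ := hd₃.mono_left h22
    intro s t hst
    fin_cases s <;> fin_cases t <;> simp_all [disjoint_comm]

theorem exists_min {C : Set V} (hC : C.Finite) (hCne : C.Nonempty) :
    ∃ C', CC G C C' ∧ ∀ X, CC G C X → dl G C' ≤ dl G X := by
  obtain ⟨C₁, hC₁⟩ := exists_CC hlf h4 h1 hC hCne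
  obtain ⟨C', hC', hmin⟩ := WellFounded.has_min (measure (fun X : Set V => dl G X)).wf
    {X : Set V | CC G C X} ⟨C₁, hC₁⟩
  refine ⟨C', hC', fun X hX => ?_⟩
  have := hmin X hX
  exact not_lt.1 (fun h => this h)

theorem exists_pieces [Nonempty V] :
    ∃ C : ℕ → Set V, (∀ i, (C i).Finite) ∧ (∀ i, (C i).Nonempty) ∧ (∀ i, C i ⊆ C (i + 1)) ∧
      (∀ i, ∀ x ∈ C i, ∀ y, G.Adj x y → y ∈ C (i + 1)) ∧
      (∀ K ⊆ C 0, K.Nonempty → K ≠ C 0 → 2 ≤ en G K (C 0 \ K)) ∧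
      (∀ i, (C (i + 1) \ C i).Nonempty) ∧
      (∀ i, ∀ K ⊆ C (i + 1) \ C i, K.Nonempty → K ≠ C (i + 1) \ C i →
        2 ≤ en G K ((C (i + 1) \ C i) \ K)) := by
  classical
  obtain ⟨v⟩ := ‹Nonempty V›
  -- first set
  obtain ⟨C₀, ⟨hC₀f, hvC₀⟩, hmin₀'⟩ := WellFounded.has_min (measure (fun X : Set V => dl G X)).wf
    {X : Set V | X.Finite ∧ v ∈ X} ⟨{v}, Set.finite_singleton v, rfl⟩
  have hmin₀ : ∀ X : Set V, X.Finite → v ∈ X → dl G C₀ ≤ dl G X := by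
    intro X hX hv
    have := hmin₀' X ⟨hX, hv⟩
    exact not_lt.1 (fun h => this h)
  -- the sequence
  let St := {C : Set V // C.Finite ∧ C.Nonempty}
  have hstep : ∀ C : St, ∃ C' : St, CC G C.1 C'.1 ∧ ∀ X, CC G C.1 X → dl G C'.1 ≤ dl G X := by
    intro C
    obtain ⟨C', hC', hmin⟩ := exists_min hlf h4 h1 C.2.1 C.2.2
    exact ⟨⟨C', hC'.1, C.2.2.mono hC'.2.1⟩, hC', hmin⟩
  choose nx hnx1 hnx2 using hstep
  let S : ℕ → St := fun n => Nat.rec ⟨C₀, hC₀f, ⟨v, hvC₀⟩⟩ (fun _ C => nx C) n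
  have hS : ∀ n, S (n + 1) = nx (S n) := fun n => rfl
  have hup : ∀ n, ∀ X : Set V, X.Finite → (S n).1 ⊆ X → dl G (S n).1 ≤ dl G X := by
    intro n X hX hsub
    cases n with
    | zero => exact hmin₀ X hX (hsub hvC₀)
    | succ n =>
      rw [hS] at hsub ⊢
      apply hnx2
      obtain ⟨hf, hs, L, hL, hd⟩ := hnx1 (S n)
      refine ⟨hX, hs.trans hsub, L, fun t => ?_, hd⟩
      obtain ⟨U, a, b, c, d⟩ := (hL t).sep
      exact ⟨fun x hx => ⟨hsub ((hL t).sub hx).1, ((hL t).sub hx).2⟩, (hL t).ne, (hL t).cn,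
        U, a, b.trans hsub, c, d⟩
  refine ⟨fun n => (S n).1, fun i => (S i).2.1, fun i => (S i).2.2, ?_, ?_, ?_, ?_, ?_⟩
  · intro i
    exact (hnx1 (S i)).2.1
  · intro i x hx y hxy
    obtain ⟨hf, hs, L, hL, hd⟩ := hnx1 (S i)
    obtain ⟨U, a, b, c, d⟩ := (hL 0).sep
    rcases d x (a hx) y hxy with h | h
    · exact b h
    · exact ((hL 0).sub h).1
  · -- the first piece
    intro K hK hKne hKn
    by_contra hlt
    have key : ∀ K : Set V, K ⊆ C₀ → K.Nonempty → v ∉ K → en G K (C₀ \ K) ≤ 1 → False := by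
      intro K hK hKne hv hown
      have hKf : K.Finite := hC₀f.subset hK
      have h5 := hmin₀ (C₀ \ K) (hC₀f.subset sdiff_subset) ⟨hvC₀, hv⟩
      have h6 := dl_union hlf (C := C₀ \ K) (K := K) (hC₀f.subset sdiff_subset) hKf
        (by rw [Set.disjoint_left]; exact fun x hx h => hx.2 h)
      have h7 : C₀ \ K ∪ K = C₀ := by
        rw [Set.sdiff_union_self, Set.union_eq_left]
        exact hK
      rw [h7] at h6
      have h8 := h4 K hKf hKne
      have h9 : dl G K = en G K (C₀ \ K) + en G K C₀ᶜ := by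
        unfold dl
        rw [← en_union hlf hKf]
        · congr 1
          ext x
          simp only [mem_union, mem_sdiff, mem_compl_iff]
          constructor
          · intro hx
            by_cases hc : x ∈ C₀
            · exact Or.inl ⟨hc, hx⟩
            · exact Or.inr hc
          · rintro (h | h)
            · exact h.2
            · exact fun hx => h (hK hx)
        · rw [Set.disjoint_left]
          exact fun x hx h => h hx.1
      omega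
    have hK' : K ⊆ C₀ := hK
    have hKn' : K ≠ C₀ := hKn
    have hlt' : en G K (C₀ \ K) ≤ 1 := by
      have h := hlt
      change ¬ 2 ≤ en G K (C₀ \ K) at h
      omega
    by_cases hv : v ∈ K
    · refine key (C₀ \ K) sdiff_subset ?_ (fun h => h.2 hv) ?_
      · by_contra h
        rw [Set.not_nonempty_iff_eq_empty, Set.sdiff_eq_empty] at h
        exact hKn' (Set.Subset.antisymm hK' h)
      · rw [Set.sdiff_sdiff_cancel_left hK', en_comm]
        exact hlt'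
    · exact key K hK' hKne hv hlt'
  · intro i
    obtain ⟨hf, hs, L, hL, hd⟩ := hnx1 (S i)
    exact (hL 0).ne.mono (hL 0).sub
  · intro i K hK hKne hKn
    exact two_conn hlf h4 (S i).2.2 (hnx1 (S i)) (hnx2 (S i)) (hup i) K hK hKne hKn

end

end Helper70.HR
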