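import Pool.Agent.Helper70.HR.Compact
import Pool.Agent.Helper66.HC.FromH

/-!
# From the level conditions to a connected end-faithful subgraph
-/

namespace Helper70.HR

open Set SimpleGraph

universe u

variable {V : Type u} {G : SimpleGraph V}

/-- cut form of connectivity gives preconnectedness -/
theorem preconnected_of_cut {W : Type u} {H : SimpleGraph W}
    (h : ∀ X : Set W, X.Nonempty → Xᶜ.Nonempty → ∃ x ∈ X, ∃ y ∉ X, H.Adj x y) :
    H.Preconnected := by
  intro u v
  by_contra hcon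
  obtain ⟨x, hx, y, hy, hxy⟩ := h {w | H.Reachable u w} ⟨u, Reachable.refl _⟩ ⟨v, hcon⟩
  exact hy (hx.trans hxy.reachable)

section

variable (hlf : ∀ v, (G.neighborSet v).Finite) (C : ℕ → Set V) (hCf : ∀ i, (C i).Finite)
  (hCne : (C 0).Nonempty)
  (hCm : ∀ i, C i ⊆ C (i + 1)) (hCn : ∀ i, ∀ x ∈ C i, ∀ y, G.Adj x y → y ∈ C (i + 1))
  (hCu : ∀ v, ∃ i, v ∈ C i) (S : Set (Sym2 V)) (hS : ∀ n, LevelOK G C S n)

include hCm in
theorem C_mono {i j : ℕ} (h : i ≤ j) : C i ⊆ C j := monotone_nat_of_le_succ hCm h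

include hCm hCn hCu hS in
/-- the complement of `B` cannot be split, when the edges from `B` go to a part `N` that is
not split -/
theorem no_split (B N : Set V) (hB : B.Finite) (hBN : ∀ x ∈ B, ∀ y ∉ B, G.Adj x y → y ∈ N)
    (hN : ∀ A ⊆ N, A.Nonempty → A ≠ N → Meets G S A (N \ A)) (hNB : Disjoint N B)
    (X Y : Set V) (hXY : X ∪ Y = Bᶜ) (hd : Disjoint X Y) (hXne : X.Nonempty) (hYne : Y.Nonempty)
    (hno : ∀ x ∈ X, ∀ y ∈ Y, G.Adj x y → s(x, y) ∉ S) : False := by
  classical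
  have hBX : ∀ x ∈ X, x ∉ B := fun x hx => by
    have : x ∈ Bᶜ := hXY ▸ Or.inl hx
    exact this
  have hBY : ∀ x ∈ Y, x ∉ B := fun x hx => by
    have : x ∈ Bᶜ := hXY ▸ Or.inr hx
    exact this
  -- general statement with `N ⊆ X`
  have key : ∀ X Y : Set V, X ∪ Y = Bᶜ → Disjoint X Y → X.Nonempty → Y.Nonempty → N ⊆ X →
      (∀ x ∈ X, ∀ y ∈ Y, G.Adj x y → s(x, y) ∉ S) → False := by
    intro X Y hXY hd hXne hYne hNX hno
    have hBX : ∀ x ∈ X, x ∉ B := fun x hx => by
      have : x ∈ Bᶜ := hXY ▸ Or.inl hx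
      exact this
    have hBY : ∀ x ∈ Y, x ∉ B := fun x hx => by
      have : x ∈ Bᶜ := hXY ▸ Or.inr hx
      exact this
    have hcov : ∀ x, x ∉ B → x ∈ X ∨ x ∈ Y := fun x hx => by
      have : x ∈ X ∪ Y := by rw [hXY]; exact hx
      exact this
    have hdis : ∀ x ∈ X, x ∉ Y := fun x hx hy => Set.disjoint_left.1 hd hx hy
    -- choose a large level
    obtain ⟨x₀, hx₀⟩ := hXne
    obtain ⟨y₀, hy₀⟩ := hYne
    obtain ⟨a, ha⟩ := hCu x₀
    obtain ⟨b, hb⟩ := hCu y₀
    have hBsub : ∃ c, B ⊆ C c := by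
      choose f hf using hCu
      obtain ⟨c, hc⟩ := (hB.image f).bddAbove
      exact ⟨c, fun x hx => C_mono C hCm (hc ⟨x, hx, rfl⟩) (hf x)⟩
    obtain ⟨c, hc⟩ := hBsub
    set m := a + b + c with hm
    have hx₀m : x₀ ∈ C (2 * m) := C_mono C hCm (by omega) ha
    have hy₀m : y₀ ∈ C (2 * m) := C_mono C hCm (by omega) hb
    have hBm : B ⊆ C (2 * m) := hc.trans (C_mono C hCm (by omega))
    set R := C (2 * m + 1) \ C (2 * m) with hR
    have hRing := (hS (2 * m + 1)).ring m le_rfl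
    have hspan := (hS (2 * m + 1)).span
    have hRXY : R ⊆ X ∨ R ⊆ Y := by
      by_cases h1 : (R ∩ X).Nonempty
      · by_cases h2 : R ∩ X = R
        · left
          rw [← h2]
          exact inter_subset_right
        · exfalso
          obtain ⟨x, hx, y, hy, hxy, hs⟩ := hRing (R ∩ X) inter_subset_left h1 h2
          have hyX : y ∉ X := fun h => hy.2 ⟨hy.1, h⟩
          have hyB : y ∉ B := fun h => hy.1.2 (hBm h)
          rcases hcov y hyB with h | h
          · exact hyX h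
          · exact hno x hx.2 y h hxy hs
      · right
        intro x hx
        have hxB : x ∉ B := fun h => hx.2 (hBm h)
        rcases hcov x hxB with h | h
        · exact absurd ⟨x, hx, h⟩ h1
        · exact h
    have hup : ∀ x ∈ C (2 * m + 1), ∀ y, G.Adj x y → y ∉ C (2 * m + 1) → x ∈ R := by
      intro x hx y hxy hy
      refine ⟨hx, fun h => hy (hCn _ x h y hxy)⟩
    rcases hRXY with h | h
    · -- `Y ∩ C` is not left by an edge
      obtain ⟨x, hx, y, hy, hxy, hs⟩ := hspan (Y ∩ C (2 * m + 1)) inter_subset_right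
        ⟨y₀, hy₀, hCm _ hy₀m⟩
      by_cases hyB : y ∈ B
      · have : x ∈ N := hBN y hyB x (hBY x hx.1) hxy.symm
        exact hdis x (hNX this) hx.1
      · rcases hcov y hyB with h' | h'
        · apply hno y h' x hx.1 hxy.symm
          rwa [Sym2.eq_swap]
        · have hyC : y ∉ C (2 * m + 1) := fun h'' => hy ⟨h', h''⟩
          exact hdis x (h (hup x hx.2 y hxy hyC)) hx.1
    · -- `B ∪ (X ∩ C)` is not left by an edge
      obtain ⟨x, hx, y, hy, hxy, hs⟩ := hspan (B ∪ (X ∩ C (2 * m + 1)))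
        (union_subset (hBm.trans (hCm _)) inter_subset_right) ⟨x₀, Or.inr ⟨hx₀, hCm _ hx₀m⟩⟩
      have hyB : y ∉ B := fun h' => hy (Or.inl h')
      rcases hx with hx | hx
      · have hyN : y ∈ N := hBN x hx y hyB hxy
        apply hy
        exact Or.inr ⟨hNX hyN, hCn _ x (hBm hx) y hxy⟩
      · rcases hcov y hyB with h' | h'
        · have hyC : y ∉ C (2 * m + 1) := fun h'' => hy (Or.inr ⟨h', h''⟩)
          exact hdis x hx.1 (h (hup x hx.2 y hxy hyC))
        · exact hno x hx.1 y h' hxy hs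
  by_cases hNX : N ⊆ X
  · exact key X Y hXY hd hXne hYne hNX hno
  · have hNY : N ⊆ Y := by
      by_cases h1 : (N ∩ X).Nonempty
      · exfalso
        have h2 : N ∩ X ≠ N := fun h => hNX (by rw [← h]; exact inter_subset_right)
        obtain ⟨x, hx, y, hy, hxy, hs⟩ := hN (N ∩ X) inter_subset_left h1 h2
        have hyX : y ∉ X := fun h => hy.2 ⟨hy.1, h⟩
        have hyB : y ∈ X ∪ Y := by
          rw [hXY]
          exact Set.disjoint_left.1 hNB hy.1
        rcases hyB with h | h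
        · exact hyX h
        · exact hno x hx.2 y h hxy hs
      · intro x hx
        have hxB : x ∈ X ∪ Y := by
          rw [hXY]
          exact Set.disjoint_left.1 hNB hx
        rcases hxB with h | h
        · exact absurd ⟨x, hx, h⟩ h1
        · exact h
    refine key Y X (by rw [union_comm]; exact hXY) hd.symm hYne hXne hNY ?_
    intro x hx y hy hxy hs
    apply hno y hy x hx hxy.symm
    rwa [Sym2.eq_swap]

/-- the subgraph with edge set `S ∩ E(G)` -/
def sub (G : SimpleGraph V) (S : Set (Sym2 V)) : SimpleGraph V where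
  Adj u v := G.Adj u v ∧ s(u, v) ∈ S
  symm := ⟨fun u v h => ⟨h.1.symm, by rw [Sym2.eq_swap]; exact h.2⟩⟩
  loopless := ⟨fun u h => G.loopless.irrefl u h.1⟩

include hCm hCn hCu hS in
theorem sub_preconnected : (sub G S).Preconnected := by
  apply preconnected_of_cut
  intro X hX hXc
  by_contra hcon
  push Not at hcon
  apply no_split C hCm hCn hCu S hS ∅ ∅ Set.finite_empty (by simp) (by
    intro A hA hAne
    exfalso
    obtain ⟨a, ha⟩ := hAne
    exact hA ha) (by simp) X Xᶜ (by simp) disjoint_compl_right hX hXc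
  intro x hx y hy hxy hs
  exact hcon x hx y hy ⟨hxy, hs⟩

include hCf hCm hCn hCu hS in
theorem sub_induce_preconnected (m : ℕ) :
    ((sub G S).induce (C (2 * m))ᶜ).Preconnected := by
  apply preconnected_of_cut
  intro X hX hXc
  by_contra hcon
  push Not at hcon
  obtain ⟨a, ha⟩ := hX
  obtain ⟨b, hb⟩ := hXc
  apply no_split C hCm hCn hCu S hS (C (2 * m)) (C (2 * m + 1) \ C (2 * m)) (hCf _)
    (fun x hx y hy hxy => ⟨hCn _ x hx y hxy, hy⟩)
    ((hS (2 * m + 1)).ring m le_rfl) (by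
      rw [Set.disjoint_left]
      exact fun x hx h => hx.2 h) (Subtype.val '' X) (Subtype.val '' Xᶜ) ?_ ?_
    ⟨a, a, ha, rfl⟩ ⟨b, b, hb, rfl⟩
  · rintro _ ⟨x, hx, rfl⟩ _ ⟨y, hy, rfl⟩ hxy hs
    exact hcon x hx y hy ⟨hxy, hs⟩
  · rw [← Set.image_union, Set.union_compl_self, Set.image_univ, Subtype.range_coe]
  · rw [Set.disjoint_left]
    rintro _ ⟨x, hx, rfl⟩ ⟨y, hy, hxy⟩
    have : y = x := Subtype.ext hxy
    subst this
    exact hy hx

include hCf hCm hCn hCu hS in
theorem good2_of_levels : Pool.H66.HC.Good2 G (sub G S) := by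
  classical
  have hsub : ∀ K : Set V, K.Finite → ∃ m, K ⊆ C (2 * m) := by
    intro K hK
    choose f hf using hCu
    obtain ⟨c, hc⟩ := (hK.image f).bddAbove
    exact ⟨c, fun x hx => C_mono C hCm (by have := hc ⟨x, hx, rfl⟩; omega) (hf x)⟩
  refine ⟨fun u v h => h.1, sub_preconnected C hCm hCn hCu S hS, ?_, ?_⟩
  · intro K
    obtain ⟨m, hm⟩ := hsub K K.finite_toSet
    refine ⟨(hCf (2 * m)).toFinset, ?_, ?_⟩
    · intro x hx
      rw [Set.Finite.mem_toFinset]
      exact hm hx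
    · intro u v hu hv hu' hv' _
      have hu2 : u ∈ (C (2 * m))ᶜ := fun h => hu ((Set.Finite.mem_toFinset _).2 h)
      have hv2 : v ∈ (C (2 * m))ᶜ := fun h => hv ((Set.Finite.mem_toFinset _).2 h)
      have h1 := sub_induce_preconnected C hCf hCm hCn hCu S hS m ⟨u, hu2⟩ ⟨v, hv2⟩
      have hle : (C (2 * m))ᶜ ≤ (K : Set V)ᶜ := Set.compl_subset_compl.2 hm
      exact h1.map (SimpleGraph.induceHomOfLE (sub G S) hle).toHom
  · intro X hX hXc hfin
    -- endpoints of the cut edges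
    have hEf : (⋃ e ∈ Pool.H66.HC.cutE G X, {v | v ∈ e.1}).Finite := by
      apply hfin.biUnion
      rintro ⟨e, he⟩ _
      induction e using Sym2.inductionOn with
      | hf a b =>
        refine (Set.toFinite ({a, b} : Set V)).subset ?_
        intro v hv
        simpa using hv
    obtain ⟨m, hm⟩ := hsub _ hEf
    have hcut : ∀ x ∈ X, ∀ y ∉ X, G.Adj x y → x ∈ C (2 * m) := by
      intro x hx y hy hxy
      apply hm
      simp only [mem_iUnion]
      exact ⟨⟨s(x, y), hxy⟩, ⟨x, hx, y, hy, rfl⟩, Sym2.mem_mk_left x y⟩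
    have hor : X ⊆ C (2 * m) ∨ Xᶜ ⊆ C (2 * m) := by
      by_contra hcon
      push Not at hcon
      obtain ⟨h1, h2⟩ := hcon
      obtain ⟨a, ha, haC⟩ := Set.not_subset.1 h1
      obtain ⟨b, hb, hbC⟩ := Set.not_subset.1 h2
      obtain ⟨p⟩ := sub_induce_preconnected C hCf hCm hCn hCu S hS m ⟨a, haC⟩ ⟨b, hbC⟩
      obtain ⟨d, -, hd1, hd2⟩ := p.exists_boundary_dart {z | (z : V) ∈ X} ha hb
      have hadj : (sub G S).Adj d.fst d.snd := d.adj
      exact d.fst.2 (hcut d.fst hd1 d.snd hd2 hadj.1)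
    rcases hor with h | h
    · obtain ⟨x, hx, y, hy, hxy, hs⟩ := (hS (2 * m)).cospan X h hX
      exact ⟨x, hx, y, hy, hxy, fun h' => hs h'.2⟩
    · obtain ⟨x, hx, y, hy, hxy, hs⟩ := (hS (2 * m)).cospan Xᶜ h hXc
      rw [compl_compl] at hy
      refine ⟨y, hy, x, hx, hxy.symm, fun h' => hs ?_⟩
      rw [Sym2.eq_swap]
      exact h'.2

end

end Helper70.HR
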