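import Pool.Agent.Helper70.HR.Exist

/-!
# The pieces from the standard hypotheses
-/

namespace Helper70.HR

open Set SimpleGraph

universe u

variable {V : Type u} {G : SimpleGraph V}

theorem four_le_dl [Infinite V] (hlf : ∀ v, (G.neighborSet v).Finite)
    (h : G.IsEdgeConnected 4) (X : Set V) (hX : X.Finite) (hXne : X.Nonempty) : 4 ≤ dl G X := by
  classical
  by_contra hlt
  push Not at hlt
  obtain ⟨u, hu⟩ := hXne
  obtain ⟨v, hv⟩ := hX.infinite_compl.nonempty
  let P : Set (V × V) := {p | p.1 ∈ X ∧ p.2 ∈ Xᶜ ∧ G.Adj p.1 p.2}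
  have hPf : P.Finite := finite_pairs hlf hX Xᶜ
  let s : Set (Sym2 V) := (fun p : V × V => s(p.1, p.2)) '' P
  have hs : s.encard < (4 : ℕ) := by
    have h1 : s.encard ≤ P.encard := Set.encard_image_le _ _
    have h2 : P.encard = (P.ncard : ℕ∞) := (hPf.cast_ncard_eq).symm
    have h3 : (P.ncard : ℕ∞) < (4 : ℕ) := by
      have h4 : P.ncard < 4 := hlt
      exact_mod_cast h4
    exact lt_of_le_of_lt h1 (h2 ▸ h3)
  obtain ⟨p⟩ := h u v hs
  obtain ⟨d, -, hd1, hd2⟩ := p.exists_boundary_dart X hu hv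
  have hd := d.adj
  rw [SimpleGraph.deleteEdges_adj] at hd
  exact hd.2 ⟨(d.fst, d.snd), ⟨hd1, hd2, hd.1⟩, rfl⟩

/-- a walk of `G.induce Kᶜ` inside the component `C` of `G - K` -/
theorem reach_in_supp {K : Set V} (C : G.ComponentCompl K) (a b : (Kᶜ : Set V))
    (p : (G.induce Kᶜ).Walk a b) : ∀ (ha : (a : V) ∈ C.supp) (hb : (b : V) ∈ C.supp),
    (G.induce C.supp).Reachable ⟨a, ha⟩ ⟨b, hb⟩ := by
  induction p with
  | nil => intro ha hb; exact Reachable.refl _
  | @cons a c b hac p ih =>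
    intro ha hb
    have hc : (c : V) ∈ C.supp := by
      obtain ⟨h1, h2⟩ := ha
      refine ⟨c.2, ?_⟩
      rw [← h2]
      exact (ConnectedComponent.sound hac.reachable.symm)
    have hadj : (G.induce C.supp).Adj ⟨a, ha⟩ ⟨c, hc⟩ := hac
    exact hadj.reachable.trans (ih hc hb)

theorem supp_preconnected {K : Set V} (C : G.ComponentCompl K) :
    (G.induce C.supp).Preconnected := by
  rintro ⟨a, ha⟩ ⟨b, hb⟩
  have ha' := ha
  have hb' := hb
  obtain ⟨h1, h2⟩ := ha'
  obtain ⟨h3, h4⟩ := hb'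
  have h5 : (G.induce Kᶜ).Reachable ⟨a, h1⟩ ⟨b, h3⟩ := by
    apply ConnectedComponent.exact
    exact h2.trans h4.symm
  obtain ⟨p⟩ := h5
  exact reach_in_supp C _ _ p ha hb

/-- `G` has at most one end: at most one component of `G - K` is infinite, for finite `K` -/
def AtMostOneEnd (G : SimpleGraph V) : Prop :=
  ∀ K : Finset V, ∀ C D : G.ComponentCompl (K : Set V),
    C.supp.Infinite → D.supp.Infinite → C = D

theorem one_end_induce [Infinite V] (hlf : ∀ v, (G.neighborSet v).Finite)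
    (hc : G.Preconnected) (h1 : AtMostOneEnd G) (K : Set V) (hK : K.Finite) :
    ∃ L : Set V, L.Finite ∧ K ⊆ L ∧ (G.induce Lᶜ).Preconnected := by
  classical
  lift K to Finset V using hK
  have : LocallyFinite G := fun v => (hlf v).fintype
  have : Fact G.Preconnected := ⟨hc⟩
  have : Finite (G.ComponentCompl (K : Set V)) := G.componentCompl_finite K
  -- the union of the finite components
  let L : Set V := K ∪ ⋃ C ∈ {C : G.ComponentCompl (K : Set V) | C.supp.Finite}, C.supp
  have hLf : L.Finite := by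
    refine K.finite_toSet.union ?_
    exact (Set.toFinite _).biUnion (fun C hC => hC)
  have hcov : ∀ v, v ∉ (K : Set V) → ∃ C : G.ComponentCompl (K : Set V), v ∈ C.supp := by
    intro v hv
    exact ⟨G.componentComplMk hv, G.componentComplMk_mem hv⟩
  obtain ⟨w, hw⟩ := hLf.infinite_compl.nonempty
  have hwK : w ∉ (K : Set V) := fun h => hw (Or.inl h)
  obtain ⟨D, hD⟩ := hcov w hwK
  have hDinf : D.supp.Infinite := by
    intro hfin
    apply hw
    refine Or.inr ?_
    simp only [mem_iUnion]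
    exact ⟨D, hfin, hD⟩
  have hLD : Lᶜ = D.supp := by
    ext x
    constructor
    · intro hx
      have hxK : x ∉ (K : Set V) := fun h => hx (Or.inl h)
      obtain ⟨C, hC⟩ := hcov x hxK
      have hCinf : C.supp.Infinite := by
        intro hfin
        apply hx
        refine Or.inr ?_
        simp only [mem_iUnion]
        exact ⟨C, hfin, hC⟩
      rw [← h1 K C D hCinf hDinf]
      exact hC
    · rintro hx (h | h)
      · obtain ⟨h2, -⟩ := hx
        exact h2 h
      · simp only [mem_iUnion] at h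
        obtain ⟨C, hC, hxC⟩ := h
        have : C = D := by
          obtain ⟨h2, h3⟩ := hxC
          obtain ⟨h4, h5⟩ := hx
          rw [← h3, ← h5]
        subst this
        exact hDinf hC
  refine ⟨L, hLf, subset_union_left, ?_⟩
  rw [hLD]
  exact supp_preconnected D

/-- Pieces of a locally finite, 4-edge-connected, infinite graph with at most one end. -/
theorem pieces [Infinite V] (hlf : ∀ v, (G.neighborSet v).Finite) (h4 : G.IsEdgeConnected 4)
    (h1 : AtMostOneEnd G) :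
    ∃ C : ℕ → Set V, (∀ i, (C i).Finite) ∧ (∀ i, (C i).Nonempty) ∧ (∀ i, C i ⊆ C (i + 1)) ∧
      (∀ i, ∀ x ∈ C i, ∀ y, G.Adj x y → y ∈ C (i + 1)) ∧ (∀ v, ∃ i, v ∈ C i) ∧
      (∀ K ⊆ C 0, K.Nonempty → K ≠ C 0 → 2 ≤ en G K (C 0 \ K)) ∧
      (∀ i, (C (i + 1) \ C i).Nonempty) ∧
      (∀ i, ∀ K ⊆ C (i + 1) \ C i, K.Nonempty → K ≠ C (i + 1) \ C i →
        2 ≤ en G K ((C (i + 1) \ C i) \ K)) := by
  have hpre : G.Preconnected := h4.preconnected (by norm_num)
  obtain ⟨C, a, b, c, d, e, f, g⟩ := exists_pieces hlf (four_le_dl hlf h4)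
    (one_end_induce hlf hpre h1)
  refine ⟨C, a, b, c, d, ?_, e, f, g⟩
  intro v
  by_contra hv
  push Not at hv
  obtain ⟨u, hu⟩ := b 0
  obtain ⟨p⟩ := hpre u v
  obtain ⟨dd, -, hd1, hd2⟩ := p.exists_boundary_dart (⋃ i, C i) (mem_iUnion.2 ⟨0, hu⟩)
    (by simp only [mem_iUnion, not_exists]; exact hv)
  obtain ⟨i, hi⟩ := mem_iUnion.1 hd1
  exact hd2 (mem_iUnion.2 ⟨i + 1, d i _ hi _ dd.adj⟩)

end Helper70.HR
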