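import Pool.Agent.Helper70.HR.Cut

/-!
# Pieces between minimum cuts are 2-edge-connected
-/

namespace Helper70.HR

open Set

variable {V : Type*}

/-- `L` separates `C` from the complement of `C'` -/
def Sep (G : SimpleGraph V) (C C' L : Set V) : Prop :=
  ∃ U, C ⊆ U ∧ U ⊆ C' ∧ Disjoint U L ∧ ∀ x ∈ U, ∀ y, G.Adj x y → y ∈ U ∨ y ∈ L

/-- a connected layer between `C` and the complement of `C'` -/
structure Lay (G : SimpleGraph V) (C C' L : Set V) : Prop where
  sub : L ⊆ C' \ C
  ne : L.Nonempty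
  cn : Cn G L
  sep : Sep G C C' L

/-- `C'` is a finite set with three disjoint connected layers around `C` -/
def CC (G : SimpleGraph V) (C C' : Set V) : Prop :=
  C'.Finite ∧ C ⊆ C' ∧ ∃ L : Fin 3 → Set V, (∀ t, Lay G C C' (L t)) ∧
    ∀ s t, s ≠ t → Disjoint (L s) (L t)

variable {G : SimpleGraph V}

/-- a connected set disjoint from the layer lies on one side -/
theorem side {L K U : Set V} (hU : ∀ x ∈ U, ∀ y, G.Adj x y → y ∈ U ∨ y ∈ L)
    (hK : Cn G K) (hd : Disjoint K L) : K ⊆ U ∨ Disjoint K U := by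
  by_cases h : (K ∩ U).Nonempty
  · left
    by_contra hn
    have hne : K ∩ U ≠ K := by
      intro h1
      apply hn
      intro x hx
      rw [← h1] at hx
      exact hx.2
    obtain ⟨x, hx, y, hy, hxy⟩ := hK (K ∩ U) inter_subset_left h hne
    rcases hU x hx.2 y hxy with h1 | h1
    · exact hy.2 ⟨hy.1, h1⟩
    · exact Set.disjoint_left.1 hd hy.1 h1
  · right
    rw [Set.disjoint_left]
    intro x h1 h2
    exact h ⟨x, h1, h2⟩

section

variable (hlf : ∀ v, (G.neighborSet v).Finite)
  (h4 : ∀ X : Set V, X.Finite → X.Nonempty → 4 ≤ dl G X)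

include hlf h4

theorem cross_case {C C' K Us Ut Ls Lt : Set V} (hfin : C'.Finite)
    (hLs : Ls ⊆ K) (hLtN : Lt ⊆ C' \ C) (hLtK : Disjoint Lt K)
    (hLtne : Lt.Nonempty)
    (hUsC' : Us ⊆ C')
    (hUs : ∀ x ∈ Us, ∀ y, G.Adj x y → y ∈ Us ∨ y ∈ Ls)
    (hUtC : C ⊆ Ut) (hUtC' : Ut ⊆ C')
    (hUt : ∀ x ∈ Ut, ∀ y, G.Adj x y → y ∈ Ut ∨ y ∈ Lt)
    (hin : Lt ⊆ Us) (hown : en G K ((C' \ C) \ K) ≤ 1) : False := by
  let P : Set V := Ut ∪ Lt ∪ (Us \ K)
  have hPfin : P.Finite := by
    apply hfin.subset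
    rintro x ((hx | hx) | hx)
    · exact hUtC' hx
    · exact (hLtN hx).1
    · exact hUsC' hx.1
  have hPne : P.Nonempty := by
    obtain ⟨x, hx⟩ := hLtne
    exact ⟨x, Or.inl (Or.inr hx)⟩
  have h := h4 P hPfin hPne
  have hle : dl G P ≤ en G ((C' \ C) \ K) K := by
    unfold dl en
    apply Set.ncard_le_ncard _
      (finite_pairs hlf ((hfin.subset (fun x hx => hx.1.1)) : ((C' \ C) \ K).Finite) K)
    rintro ⟨x, y⟩ ⟨hx, hy, hxy⟩
    simp only [P, mem_compl_iff, mem_union, mem_sdiff, not_or, not_and, not_not] at hx hy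
    simp only [mem_ofPred_eq]
    have key : x ∈ Us → y ∈ K := by
      intro hxs
      rcases hUs x hxs y hxy with h1 | h1
      · exact hy.2 h1
      · exact hLs h1
    rcases hx with (hx | hx) | hx
    · rcases hUt x hx y hxy with h1 | h1
      · exact absurd h1 hy.1.1
      · exact absurd h1 hy.1.2
    · exact ⟨⟨hLtN hx, fun h => Set.disjoint_left.1 hLtK hx h⟩, key (hin hx), hxy⟩
    · by_cases hc : x ∈ C
      · rcases hUt x (hUtC hc) y hxy with h1 | h1
        · exact absurd h1 hy.1.1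
        · exact absurd h1 hy.1.2
      · exact ⟨⟨⟨hUsC' hx.1, hc⟩, hx.2⟩, key hx.1, hxy⟩
  rw [en_comm] at hle
  omega

theorem no_cross {C C' K Ls Lt : Set V} (hfin : C'.Finite) (hCne : C.Nonempty)
    (hKN : K ⊆ C' \ C) (hLs : Lay G C C' Ls) (hLt : Lay G C C' Lt) (hst : Disjoint Ls Lt)
    (hLsK : Ls ⊆ K) (hLtK : Disjoint Lt K) (hown : en G K ((C' \ C) \ K) ≤ 1) : False := by
  obtain ⟨Us, hUsC, hUsC', hUsd, hUs⟩ := hLs.sep
  obtain ⟨Ut, hUtC, hUtC', hUtd, hUt⟩ := hLt.sep
  rcases side hUs hLt.cn hst.symm with h1 | h1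
  · exact cross_case hlf h4 hfin hLsK hLt.sub hLtK hLt.ne hUsC' hUs hUtC hUtC' hUt h1 hown
  · rcases side hUt hLs.cn hst with h2 | h2
    · -- exchange `K` and its complement in the piece
      have hKK : (C' \ C) \ ((C' \ C) \ K) = K := by
        rw [Set.sdiff_sdiff_cancel_left hKN]
      refine cross_case hlf h4 (K := (C' \ C) \ K) hfin
        (fun x hx => ⟨hLt.sub hx, fun h => Set.disjoint_left.1 hLtK hx h⟩) hLs.sub ?_ hLs.ne
        hUtC' hUt hUsC hUsC' hUs h2 ?_
      · rw [Set.disjoint_left]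
        intro x hx h
        exact h.2 (hLsK hx)
      · rw [hKK, en_comm]
        exact hown
    · -- `Us ∩ Ut` would be closed
      have hfinU : (Us ∩ Ut).Finite := hfin.subset (fun x hx => hUsC' hx.1)
      have hneU : (Us ∩ Ut).Nonempty := by
        obtain ⟨c, hc⟩ := hCne
        exact ⟨c, hUsC hc, hUtC hc⟩
      have h := h4 _ hfinU hneU
      have h0 : dl G (Us ∩ Ut) = 0 := by
        unfold dl en
        rw [Set.ncard_eq_zero (finite_pairs hlf hfinU _)]
        ext ⟨x, y⟩
        simp only [mem_ofPred_eq, mem_empty_iff_false, iff_false, not_and]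
        intro hx hy hxy
        apply hy
        rcases hUs x hx.1 y hxy with a | a
        · rcases hUt x hx.2 y hxy with b | b
          · exact ⟨a, b⟩
          · exact absurd a (fun a => Set.disjoint_left.1 h1 b a)
        · rcases hUt x hx.2 y hxy with b | b
          · exact absurd b (fun b => Set.disjoint_left.1 h2 a b)
          · exact absurd b (fun b => Set.disjoint_left.1 hst a b)
      omega

omit h4 in
/-- decomposition of the boundary of a subset of a piece -/
theorem dl_piece {C C' K : Set V} (hfin : C'.Finite) (hCC' : C ⊆ C') (hK : K ⊆ C' \ C) :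
    dl G K = en G K ((C' \ C) \ K) + en G K C + en G K C'ᶜ := by
  have hKf : K.Finite := hfin.subset (fun x hx => (hK hx).1)
  unfold dl
  rw [← en_union hlf hKf, ← en_union hlf hKf]
  · congr 1
    ext x
    simp only [mem_compl_iff, mem_union, mem_sdiff]
    constructor
    · intro hx
      by_cases h1 : x ∈ C'
      · by_cases h2 : x ∈ C
        · exact Or.inl (Or.inr h2)
        · exact Or.inl (Or.inl ⟨⟨h1, h2⟩, hx⟩)
      · exact Or.inr h1
    · rintro ((h | h) | h)
      · exact h.2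
      · exact fun hx => (hK hx).2 h
      · exact fun hx => h (hK hx).1
  · rw [Set.disjoint_left]
    rintro x (h | h) h'
    · exact h' h.1.1
    · exact h' (hCC' h)
  · rw [Set.disjoint_left]
    rintro x h h'
    exact h.1.2 h'

theorem two_conn {C C' : Set V} (hCne : C.Nonempty) (hCC : CC G C C')
    (hmin : ∀ X, CC G C X → dl G C' ≤ dl G X)
    (hup : ∀ X : Set V, X.Finite → C ⊆ X → dl G C ≤ dl G X)
    (K : Set V) (hK : K ⊆ C' \ C) (hKne : K.Nonempty) (hKn : K ≠ C' \ C) :
    2 ≤ en G K ((C' \ C) \ K) := by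
  obtain ⟨hfin, hsub, L, hL, hdis⟩ := hCC
  by_contra hlt
  have hown : en G K ((C' \ C) \ K) ≤ 1 := by omega
  have hCfin : C.Finite := hfin.subset hsub
  -- choose the side without full layers
  have hgood : ∃ K₀ ⊆ C' \ C, K₀.Nonempty ∧ en G K₀ ((C' \ C) \ K₀) ≤ 1 ∧
      ∀ t, ¬ L t ⊆ K₀ := by
    by_cases h1 : ∀ t, ¬ L t ⊆ K
    · exact ⟨K, hK, hKne, hown, h1⟩
    · push Not at h1
      obtain ⟨s, hs⟩ := h1
      refine ⟨(C' \ C) \ K, sdiff_subset, ?_, ?_, ?_⟩
      · by_contra hne
        rw [Set.not_nonempty_iff_eq_empty, Set.sdiff_eq_empty] at hne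
        exact hKn (Set.Subset.antisymm hK hne)
      · rw [Set.sdiff_sdiff_cancel_left hK, en_comm]
        exact hown
      · intro t ht
        have hst : s ≠ t := by
          rintro rfl
          obtain ⟨x, hx⟩ := (hL s).ne
          exact (ht hx).2 (hs hx)
        refine no_cross hlf h4 hfin hCne hK (hL s) (hL t) (hdis s t hst) hs ?_ hown
        rw [Set.disjoint_left]
        intro x hx hxK
        exact (ht hx).2 hxK
  obtain ⟨K₀, hK₀, hK₀ne, hown₀, hfull₀⟩ := hgood
  -- a minimal such set is connected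
  obtain ⟨K₁, ⟨hK₁K₀, hK₁ne, hown₁⟩, hmin₁⟩ := WellFounded.has_min (measure (fun X : Set V => X.ncard)).wf
    {X : Set V | X ⊆ K₀ ∧ X.Nonempty ∧ en G X ((C' \ C) \ X) ≤ 1} ⟨K₀, Subset.rfl, hK₀ne, hown₀⟩
  have hK₁ : K₁ ⊆ C' \ C := hK₁K₀.trans hK₀
  have hK₁f : K₁.Finite := hfin.subset (fun x hx => (hK₁ hx).1)
  have hfull : ∀ t, ¬ L t ⊆ K₁ := fun t h => hfull₀ t (h.trans hK₁K₀)
  have hcn : Cn G K₁ := by
    intro A hA hAne hAn
    by_contra hno
    push Not at hno
    have hAf : A.Finite := hK₁f.subset hA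
    have h1 : en G A ((C' \ C) \ A) ≤ 1 := by
      refine le_trans ?_ hown₁
      unfold en
      apply Set.ncard_le_ncard _ (finite_pairs hlf hK₁f _)
      rintro ⟨x, y⟩ ⟨hx, hy, hxy⟩
      refine ⟨hA hx, ⟨hy.1, fun hyK => ?_⟩, hxy⟩
      exact hno x hx y ⟨hyK, hy.2⟩ hxy
    have h2 := hmin₁ A ⟨hA.trans hK₁K₀, hAne, h1⟩
    apply h2
    exact Set.ncard_lt_ncard (lt_of_le_of_ne hA hAn) hK₁f
  -- split layers
  have huniq : ∀ x ∈ K₁, ∀ y ∈ (C' \ C) \ K₁, G.Adj x y → ∀ x' ∈ K₁, ∀ y' ∈ (C' \ C) \ K₁,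
      G.Adj x' y' → x = x' ∧ y = y' := by
    intro x hx y hy hxy x' hx' y' hy' hxy'
    have h1 := (Set.ncard_le_one (finite_pairs hlf hK₁f ((C' \ C) \ K₁))).1 hown₁
      (x, y) ⟨hx, hy, hxy⟩ (x', y') ⟨hx', hy', hxy'⟩
    exact ⟨congrArg Prod.fst h1, congrArg Prod.snd h1⟩
  have hsplit : ∀ t, (L t ∩ K₁).Nonempty → ∃ x ∈ L t ∩ K₁, ∃ y ∈ L t \ K₁, G.Adj x y := by
    intro t ht
    obtain ⟨x, hx, y, hy, hxy⟩ := (hL t).cn (L t ∩ K₁) inter_subset_left ht
      (fun h => hfull t (by rw [← h]; exact inter_subset_right))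
    exact ⟨x, hx, y, ⟨hy.1, fun h => hy.2 ⟨hy.1, h⟩⟩, hxy⟩
  have hone : ∀ s t, (L s ∩ K₁).Nonempty → (L t ∩ K₁).Nonempty → s = t := by
    intro s t hs ht
    by_contra hst
    obtain ⟨x, hx, y, hy, hxy⟩ := hsplit s hs
    obtain ⟨x', hx', y', hy', hxy'⟩ := hsplit t ht
    have h1 := huniq x hx.2 y ⟨(hL s).sub hy.1, hy.2⟩ hxy x' hx'.2 y' ⟨(hL t).sub hy'.1, hy'.2⟩ hxy'
    have h2 : x ∈ L t := by rw [h1.1]; exact hx'.1
    exact Set.disjoint_left.1 (hdis s t hst) hx.1 h2
  have hun : ∃ t, Disjoint K₁ (L t) := by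
    by_contra hno
    push Not at hno
    have h1 : ∀ t, (L t ∩ K₁).Nonempty := by
      intro t
      have := hno t
      rw [Set.not_disjoint_iff] at this
      obtain ⟨x, hx, hx'⟩ := this
      exact ⟨x, hx', hx⟩
    have h2 := hone 0 1 (h1 0) (h1 1)
    exact absurd h2 (by decide)
  have hdl := dl_piece hlf hfin hsub hK₁
  have h44 := h4 K₁ hK₁f hK₁ne
  -- not both kinds of edges
  have hBA : ∀ t, Disjoint K₁ (L t) → ∀ U, C ⊆ U → U ⊆ C' →
      (∀ x ∈ U, ∀ y, G.Adj x y → y ∈ U ∨ y ∈ L t) → K₁ ⊆ U → en G K₁ C'ᶜ = 0 := by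
    intro t ht U hCU hUC' hU hKU
    unfold en
    rw [Set.ncard_eq_zero (finite_pairs hlf hK₁f _)]
    ext ⟨x, y⟩
    simp only [mem_ofPred_eq, mem_empty_iff_false, iff_false, not_and]
    intro hx hy hxy
    apply hy
    rcases hU x (hKU hx) y hxy with h | h
    · exact hUC' h
    · exact ((hL t).sub h).1
  have hzero : en G K₁ C = 0 ∨ en G K₁ C'ᶜ = 0 := by
    by_contra hno
    push Not at hno
    obtain ⟨h1, h2⟩ := hno
    obtain ⟨t, ht⟩ := hun
    obtain ⟨U, hCU, hUC', hUd, hU⟩ := (hL t).sep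
    have h3 : ({p : V × V | p.1 ∈ K₁ ∧ p.2 ∈ C ∧ G.Adj p.1 p.2}).Nonempty := by
      by_contra h
      rw [Set.not_nonempty_iff_eq_empty] at h
      apply h1
      unfold en
      rw [h, Set.ncard_empty]
    obtain ⟨⟨x, y⟩, hx, hy, hxy⟩ := h3
    apply h2
    refine hBA t ht U hCU hUC' hU ?_
    rcases side hU hcn ht with h | h
    · exact h
    · exfalso
      rcases hU y (hCU hy) x hxy.symm with h' | h'
      · exact Set.disjoint_left.1 h hx h'
      · exact Set.disjoint_left.1 ht hx h'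
  rcases hzero with hu | ha
  · -- no edges to `C`: remove `K₁` from `C'`
    have hapos : 0 < en G K₁ C'ᶜ := by omega
    have hCCK : CC G C (C' \ K₁) := by
      refine ⟨hfin.subset sdiff_subset, ?_, fun t => L t \ K₁, ?_, ?_⟩
      · intro x hx
        exact ⟨hsub hx, fun h => (hK₁ h).2 hx⟩
      · intro t
        obtain ⟨U, hCU, hUC', hUd, hU⟩ := (hL t).sep
        refine ⟨?_, ?_, ?_, U \ K₁, ?_, ?_, ?_, ?_⟩
        · intro x hx
          exact ⟨⟨((hL t).sub hx.1).1, hx.2⟩, ((hL t).sub hx.1).2⟩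
        · by_contra h
          rw [Set.not_nonempty_iff_eq_empty, Set.sdiff_eq_empty] at h
          exact hfull t h
        · -- connectedness of the rest of the layer
          by_cases hsp : (L t ∩ K₁).Nonempty
          · obtain ⟨x₀, hx₀, y₀, hy₀, hxy₀⟩ := hsplit t hsp
            have hq : ∀ x ∈ L t ∩ K₁, ∀ y ∈ L t \ K₁, G.Adj x y → y = y₀ := by
              intro x hx y hy hxy
              exact (huniq x hx.2 y ⟨(hL t).sub hy.1, hy.2⟩ hxy x₀ hx₀.2 y₀
                ⟨(hL t).sub hy₀.1, hy₀.2⟩ hxy₀).2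
            intro A hA hAne hAn
            by_cases hyA : y₀ ∈ A
            · have hBne : ((L t \ K₁) \ A).Nonempty := by
                by_contra h
                rw [Set.not_nonempty_iff_eq_empty, Set.sdiff_eq_empty] at h
                exact hAn (Set.Subset.antisymm hA h)
              obtain ⟨x, hx, y, hy, hxy⟩ := (hL t).cn ((L t \ K₁) \ A)
                (fun x hx => hx.1.1) hBne (by
                  intro h
                  have h5 : x₀ ∈ (L t \ K₁) \ A := by rw [h]; exact hx₀.1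
                  exact h5.1.2 hx₀.2)
              by_cases hyK : y ∈ K₁
              · exact absurd (hq y ⟨hy.1, hyK⟩ x hx.1 hxy.symm) (fun h => hx.2 (h ▸ hyA))
              · by_cases hyA' : y ∈ A
                · exact ⟨y, hyA', x, hx, hxy.symm⟩
                · exact absurd (⟨⟨hy.1, hyK⟩, hyA'⟩ : y ∈ (L t \ K₁) \ A) hy.2
            · obtain ⟨x, hx, y, hy, hxy⟩ := (hL t).cn A (fun x hx => (hA hx).1) hAne (by
                  intro h
                  have h5 : x₀ ∈ A := by rw [h]; exact hx₀.1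
                  exact (hA h5).2 hx₀.2)
              by_cases hyK : y ∈ K₁
              · exact absurd (hq y ⟨hy.1, hyK⟩ x (hA hx) hxy.symm) (fun h => hyA (h ▸ hx))
              · exact ⟨x, hx, y, ⟨⟨hy.1, hyK⟩, hy.2⟩, hxy⟩
          · have h5 : L t \ K₁ = L t := by
              ext x
              constructor
              · exact fun h => h.1
              · exact fun h => ⟨h, fun h' => hsp ⟨x, h, h'⟩⟩
            change Cn G (L t \ K₁)
            rw [h5]
            exact (hL t).cn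
        · intro x hx
          exact ⟨hCU hx, fun h => (hK₁ h).2 hx⟩
        · intro x hx
          exact ⟨hUC' hx.1, hx.2⟩
        · rw [Set.disjoint_left]
          intro x hx hx'
          exact Set.disjoint_left.1 hUd hx.1 hx'.1
        · intro x hx y hxy
          have hyK : y ∉ K₁ := by
            intro hyK
            have hxC : x ∉ C := by
              intro hxC
              have : (y, x) ∈ ({p : V × V | p.1 ∈ K₁ ∧ p.2 ∈ C ∧ G.Adj p.1 p.2}) :=
                ⟨hyK, hxC, hxy.symm⟩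
              unfold en at hu
              rw [Set.ncard_eq_zero (finite_pairs hlf hK₁f _)] at hu
              rw [hu] at this
              exact this
            by_cases hsp : (L t ∩ K₁).Nonempty
            · obtain ⟨x₀, hx₀, y₀, hy₀, hxy₀⟩ := hsplit t hsp
              have h5 := (huniq y hyK x ⟨⟨hUC' hx.1, hxC⟩, hx.2⟩ hxy.symm x₀ hx₀.2 y₀
                ⟨(hL t).sub hy₀.1, hy₀.2⟩ hxy₀).2
              exact Set.disjoint_left.1 hUd hx.1 (h5 ▸ hy₀.1)
            · have hdj : Disjoint K₁ (L t) := by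
                rw [Set.disjoint_left]
                intro z hz hz'
                exact hsp ⟨z, hz', hz⟩
              rcases side hU hcn hdj with h | h
              · have := hBA t hdj U hCU hUC' hU h
                omega
              · rcases hU x hx.1 y hxy with h' | h'
                · exact Set.disjoint_left.1 h hyK h'
                · exact Set.disjoint_left.1 hdj hyK h'
          rcases hU x hx.1 y hxy with h | h
          · exact Or.inl ⟨h, hyK⟩
          · exact Or.inr ⟨h, hyK⟩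
      · intro s t hst
        exact (hdis s t hst).mono sdiff_subset sdiff_subset
    have h5 := hmin _ hCCK
    have h6 := dl_union hlf (C := C' \ K₁) (K := K₁) (hfin.subset sdiff_subset) hK₁f
      (by rw [Set.disjoint_left]; exact fun x hx h => hx.2 h)
    have h7 : C' \ K₁ ∪ K₁ = C' := by
      rw [Set.sdiff_union_self, Set.union_eq_left]
      exact fun x hx => (hK₁ hx).1
    rw [h7] at h6
    have h8 : en G K₁ (C' \ K₁) = en G K₁ ((C' \ C) \ K₁) + en G K₁ C := by
      rw [← en_union hlf hK₁f]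
      · congr 1
        ext x
        simp only [mem_union, mem_sdiff]
        constructor
        · intro hx
          by_cases hc : x ∈ C
          · exact Or.inr hc
          · exact Or.inl ⟨⟨hx.1, hc⟩, hx.2⟩
        · rintro (h | h)
          · exact ⟨h.1.1, h.2⟩
          · exact ⟨hsub h, fun hx => (hK₁ hx).2 h⟩
      · rw [Set.disjoint_left]
        exact fun x hx h => hx.1.2 h
    omega
  · -- no edges to the complement of `C'`: add `K₁` to `C`
    have h5 := hup (C ∪ K₁) (hCfin.union hK₁f) subset_union_left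
    have h6 := dl_union hlf (C := C) (K := K₁) hCfin hK₁f
      (by rw [Set.disjoint_left]; exact fun x hx h => (hK₁ h).2 hx)
    have h8 : en G K₁ (C ∪ K₁)ᶜ = en G K₁ ((C' \ C) \ K₁) + en G K₁ C'ᶜ := by
      rw [← en_union hlf hK₁f]
      · congr 1
        ext x
        simp only [mem_union, mem_sdiff, mem_compl_iff, not_or]
        constructor
        · intro hx
          by_cases hc : x ∈ C'
          · exact Or.inl ⟨⟨hc, hx.1⟩, hx.2⟩
          · exact Or.inr hc
        · rintro (h | h)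
          · exact ⟨h.1.2, h.2⟩
          · exact ⟨fun hx => h (hsub hx), fun hx => h (hK₁ hx).1⟩
      · rw [Set.disjoint_left]
        exact fun x hx h => h hx.1.1
    omega

end

end Helper70.HR
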